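import Pool.Agent.E8helper4.FV.Stm
import Pool.Agent.Helper202.Geom

/-!
# Project FV: C3 (the curve in the tangent angle parametrisation, change of variables in the linear
identities) and C4 (the derivative of the radius of curvature)
-/

set_option autoImplicit false

namespace Pool.Agent.E8helper52.FV

open Complex MeasureTheory Metric Set Filter Topology ComplexConjugate
open Pool.Agent.E8helper4.FV

/-- points of the unit circle lie in the ball -/
lemma mem_b {r : ℝ} (hr : 1 < r) (t : ℝ) : exp ((t : ℂ) * I) ∈ ball (0 : ℂ) r := by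
  simp only [mem_ball, dist_zero_right, Complex.norm_exp_ofReal_mul_I]
  exact hr

lemma dne {φ : ℂ → ℂ} {r : ℝ} (hr : 1 < r) (hd : DifferentiableOn ℂ φ (ball 0 r))
    (hi : InjOn φ (ball 0 r)) (t : ℝ) : deriv φ (exp ((t : ℂ) * I)) ≠ 0 :=
  Pool.Agent.Helper202.Geom.deriv_ne_zero_of_injOn isOpen_ball hd hi (mem_b hr t)

lemma e_der (t : ℝ) : HasDerivAt (fun t : ℝ => exp ((t : ℂ) * I)) (exp ((t : ℂ) * I) * I) t := by
  have h1 : HasDerivAt (fun z : ℂ => exp (z * I)) (exp ((t : ℂ) * I) * I) (t : ℂ) := by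
    have h0 : HasDerivAt (fun z : ℂ => z * I) I (t : ℂ) := by
      simpa using (hasDerivAt_id (t : ℂ)).mul_const I
    exact h0.cexp
  exact h1.comp_ofReal

/-- the first derivative along the circle -/
lemma d1_der {φ : ℂ → ℂ} {r : ℝ} (hr : 1 < r) (hd : DifferentiableOn ℂ φ (ball 0 r)) (t : ℝ) :
    HasDerivAt (fun t : ℝ => φ (exp ((t : ℂ) * I)))
      (deriv φ (exp ((t : ℂ) * I)) * (exp ((t : ℂ) * I) * I)) t := by
  have h1 : HasDerivAt φ (deriv φ (exp ((t : ℂ) * I))) (exp ((t : ℂ) * I)) :=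
    (hd.differentiableAt (isOpen_ball.mem_nhds (mem_b hr t))).hasDerivAt
  exact h1.comp t (e_der t)

lemma hd' {φ : ℂ → ℂ} {r : ℝ} (hd : DifferentiableOn ℂ φ (ball 0 r)) :
    DifferentiableOn ℂ (deriv φ) (ball 0 r) := hd.deriv isOpen_ball

lemma c_e : Continuous (fun t : ℝ => exp ((t : ℂ) * I)) := by fun_prop

lemma c_of {g : ℂ → ℂ} {r : ℝ} (hr : 1 < r) (hd : DifferentiableOn ℂ g (ball 0 r)) :
    Continuous (fun t : ℝ => g (exp ((t : ℂ) * I))) :=
  hd.continuousOn.comp_continuous c_e (mem_b hr)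

lemma c_om {φ : ℂ → ℂ} {r : ℝ} (hr : 1 < r) (hd : DifferentiableOn ℂ φ (ball 0 r))
    (hi : InjOn φ (ball 0 r)) : Continuous (om φ) := by
  unfold om
  refine continuous_re.comp (continuous_const.add (Continuous.div ?_ ?_ ?_))
  · exact c_e.mul (c_of hr (hd' (hd' hd)))
  · exact c_of hr (hd' hd)
  · exact dne hr hd hi

lemma e_per (t : ℝ) : exp (((t + 2 * Real.pi : ℝ) : ℂ) * I) = exp ((t : ℂ) * I) := by
  have : ((t + 2 * Real.pi : ℝ) : ℂ) * I = (t : ℂ) * I + 2 * Real.pi * I := by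
    push_cast; ring
  rw [this, Complex.exp_periodic]

lemma om_per (φ : ℂ → ℂ) (t : ℝ) : om φ (t + 2 * Real.pi) = om φ t := by
  unfold om
  rw [e_per]

lemma cT {φ : ℂ → ℂ} {th T : ℝ → ℝ} (h : Ang φ th T) : Continuous T :=
  continuous_iff_continuousAt.2 fun s => (h.dT s).continuousAt

lemma cth {φ : ℂ → ℂ} {th T : ℝ → ℝ} (h : Ang φ th T) : Continuous th :=
  continuous_iff_continuousAt.2 fun s => (h.dth s).continuousAt

lemma crv {φ : ℂ → ℂ} {r : ℝ} {th T : ℝ → ℝ} (hr : 1 < r) (hd : DifferentiableOn ℂ φ (ball 0 r))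
    (hi : InjOn φ (ball 0 r)) (ho : ∀ t, 0 < om φ t) (h : Ang φ th T) :
    Crv (rr φ T) (zz φ T) where
  cont := by
    unfold rr
    refine Continuous.div ?_ ((c_om hr hd hi).comp (cT h)) fun s => (ho (T s)).ne'
    exact ((c_of hr (hd' hd)).comp (cT h)).norm
  pos s := div_pos (norm_pos_iff.2 (dne hr hd hi (T s))) (ho _)
  per s := by
    unfold rr
    rw [h.pT, e_per, om_per]
  perz s := by
    unfold zz
    rw [h.pT, e_per]
  der s := by
    have h1 := (d1_der hr hd (T s)).scomp s (h.dT s)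
    have h2 := h.tan (T s)
    rw [h.thT] at h2
    refine h1.congr_deriv ?_
    rw [show deriv φ (exp ((T s : ℂ) * I)) * (exp ((T s : ℂ) * I) * I) =
      I * exp ((T s : ℂ) * I) * deriv φ (exp ((T s : ℂ) * I)) by ring, h2]
    simp only [Complex.real_smul, rr]
    push_cast
    ring

lemma lin {φ : ℂ → ℂ} {r : ℝ} {th T : ℝ → ℝ} (hr : 1 < r) (hd : DifferentiableOn ℂ φ (ball 0 r))
    (hi : InjOn φ (ball 0 r)) (ho : ∀ t, 0 < om φ t) (h : Ang φ th T) (a : ℝ)
    (H : ∀ α β : ℂ, α * β = -(a : ℂ) →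
      ∮ w in C(0, 1), exp (α * φ w + β * conj (φ w)) * deriv φ w = 0) :
    Lin a (rr φ T) (zz φ T) := by
  intro α hα
  have hC := crv hr hd hi ho h
  -- the integrand on the circle
  have h1 := H α (-(a : ℂ) / α) (by field_simp)
  rw [circleIntegral] at h1
  set F : ℝ → ℂ := fun s => E a (zz φ T) α s * ((rr φ T s : ℂ) * exp ((s : ℂ) * I)) with hF
  have hzc : Continuous (zz φ T) :=
    continuous_iff_continuousAt.2 fun s => (hC.der s).continuousAt
  have hFc : Continuous F := by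
    have h2 := hC.cont
    unfold E at hF
    rw [hF]
    fun_prop
  have hFp : Function.Periodic F (2 * Real.pi) := by
    intro s
    simp only [hF, E]
    rw [hC.perz, hC.per, e_per]
  have h3 : ∫ t in (0 : ℝ)..(2 * Real.pi), om φ t • F (th t) = ∫ s in (th 0)..(th (2 * Real.pi)), F s := by
    have h4 := intervalIntegral.integral_deriv_smul_comp (a := 0) (b := 2 * Real.pi) (f := th)
      (f' := om φ) (g := F) (fun t _ => h.dth t) (c_om hr hd hi).continuousOn hFc
    simpa [Function.comp] using h4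
  have h5 : th (2 * Real.pi) = th 0 + 2 * Real.pi := by
    have := h.pth 0
    rwa [zero_add] at this
  rw [h5] at h3
  have h6 : ∫ s in (th 0)..(th 0 + 2 * Real.pi), F s = ∫ s in (0 : ℝ)..(2 * Real.pi), F s := by
    have := hFp.intervalIntegral_add_eq (th 0) 0
    rwa [zero_add] at this
  rw [h6] at h3
  show ∫ s in (0 : ℝ)..(2 * Real.pi), F s = 0
  rw [← h3, ← h1]
  refine intervalIntegral.integral_congr fun t _ => ?_
  simp only [hF, E, zz, rr, h.Tth, circleMap, deriv_circleMap]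
  have h7 := h.tan t
  have h8 : (om φ t : ℂ) ≠ 0 := by exact_mod_cast (ho t).ne'
  simp only [Complex.real_smul, smul_eq_mul, ofReal_one, one_mul, zero_add]
  have h9 : exp (α * φ (exp ((t : ℂ) * I)) - (a : ℂ) / α * conj (φ (exp ((t : ℂ) * I)))) =
      exp (α * φ (exp ((t : ℂ) * I)) + -(a : ℂ) / α * conj (φ (exp ((t : ℂ) * I)))) := by
    congr 1
    ring
  rw [h9]
  have h10 : (om φ t : ℂ) * ((‖deriv φ (exp ((t : ℂ) * I))‖ / om φ t : ℝ) : ℂ) =
      (‖deriv φ (exp ((t : ℂ) * I))‖ : ℂ) := by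
    rw [ofReal_div, mul_div_cancel₀ _ h8]
  rw [show ∀ u x y z : ℂ, u * (x * (y * z)) = x * ((u * y) * z) from fun u x y z => by ring,
    h10, ← h7]
  ring

theorem t_C3 : C3 := fun _ _ _ _ hr hd hi ho h =>
  ⟨crv hr hd hi ho h, fun a H => lin hr hd hi ho h a H⟩

lemma cd_of {g : ℂ → ℂ} {r : ℝ} (hr : 1 < r) (hd : DifferentiableOn ℂ g (ball 0 r)) :
    ContDiff ℝ 1 (fun t : ℝ => g (exp ((t : ℂ) * I))) := by
  refine contDiff_iff_contDiffAt.2 fun t => ?_
  have h1 : ContDiffAt ℂ 1 g (exp ((t : ℂ) * I)) :=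
    (hd.analyticAt (isOpen_ball.mem_nhds (mem_b hr t))).contDiffAt
  have h2 : ContDiffAt ℝ 1 (fun t : ℝ => exp ((t : ℂ) * I)) t := by
    have h3 : ContDiff ℝ 1 (fun t : ℝ => exp ((t : ℂ) * I)) :=
      (Complex.ofRealCLM.contDiff.mul contDiff_const).cexp
    exact h3.contDiffAt
  exact (h1.restrict_scalars ℝ).comp t h2

lemma cd_e : ContDiff ℝ 1 (fun t : ℝ => exp ((t : ℂ) * I)) :=
  (Complex.ofRealCLM.contDiff.mul contDiff_const).cexp

lemma cd_kap {φ : ℂ → ℂ} {r : ℝ} (hr : 1 < r) (hd : DifferentiableOn ℂ φ (ball 0 r))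
    (hi : InjOn φ (ball 0 r)) : ContDiff ℝ 1 (kap φ) := by
  have h1 : ContDiff ℝ 1 (fun t : ℝ => deriv φ (exp ((t : ℂ) * I))) := cd_of hr (hd' hd)
  have h2 : ContDiff ℝ 1 (fun t : ℝ => deriv (deriv φ) (exp ((t : ℂ) * I))) :=
    cd_of hr (hd' (hd' hd))
  have h4 : ContDiff ℝ 1 (fun t : ℝ => 1 + exp ((t : ℂ) * I) *
      deriv (deriv φ) (exp ((t : ℂ) * I)) / deriv φ (exp ((t : ℂ) * I))) := by
    simp only [div_eq_mul_inv]
    exact contDiff_const.add ((cd_e.mul h2).mul (h1.inv (dne hr hd hi)))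
  have h3 : ContDiff ℝ 1 (om φ) := Complex.reCLM.contDiff.comp h4
  exact h3.div (h1.norm ℝ (dne hr hd hi)) fun t => norm_ne_zero_iff.2 (dne hr hd hi t)

theorem t_C4 : C4 := by
  intro φ r th T hr hd hi ho h
  have hk := cd_kap hr hd hi
  have hkd : ∀ t, HasDerivAt (kap φ) (deriv (kap φ) t) t := fun t =>
    (hk.differentiable one_ne_zero t).hasDerivAt
  have hkc : Continuous (deriv (kap φ)) := hk.continuous_deriv le_rfl
  have hkp : ∀ t, 0 < kap φ t := fun t => div_pos (ho t) (norm_pos_iff.2 (dne hr hd hi t))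
  have hrr : rr φ T = fun s => (kap φ (T s))⁻¹ := by
    funext s
    simp only [rr, kap, inv_div]
  refine ⟨fun s => -(deriv (kap φ) (T s) * (1 / om φ (T s))) / (kap φ (T s)) ^ 2, ?_, ?_, ?_⟩
  · refine Continuous.div ?_ ?_ fun s => (pow_pos (hkp _) 2).ne'
    · refine ((hkc.comp (cT h)).mul (continuous_const.div ((c_om hr hd hi).comp (cT h)) ?_)).neg
      exact fun s => (ho (T s)).ne'
    · exact (hk.continuous.comp (cT h)).pow 2
  · intro s
    rw [hrr]
    have h1 := (hkd (T s)).comp s (h.dT s)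
    exact h1.inv (hkp _).ne'
  · intro s
    by_cases h0 : deriv (kap φ) (T s) = 0
    · right
      simp [h0]
    · left
      have h1 : -(deriv (kap φ) (T s) * (1 / om φ (T s))) / (kap φ (T s)) ^ 2 *
          -deriv (kap φ) (T s) =
          (deriv (kap φ) (T s)) ^ 2 * (1 / om φ (T s)) / (kap φ (T s)) ^ 2 := by ring
      rw [h1]
      have h2 : 0 < (deriv (kap φ) (T s)) ^ 2 := by positivity
      have h3 := ho (T s)
      have h4 := hkp (T s)
      positivity

end Pool.Agent.E8helper52.FV
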